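import Mathlib
import Pool.Agent.V5helper35.CA.Stm1

/-!
# JOB SS of project CA (helper35)

Chevalley's theorem for commuting integer matrices, up to unipotent parts.
-/

set_option autoImplicit false
set_option linter.style.haveILetI false
set_option linter.deprecated false

namespace Pool.Agent.V5helper69.CA

open NumberField Pool.Agent.V5helper35.CA

/-- The torsion exponent of a finitely generated abelian group modulo a subgroup. -/
theorem exists_torsion_exp (M : Type) [AddCommGroup M] [Module.Finite ℤ M] (H : AddSubgroup M) :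
    ∃ e : ℕ, 0 < e ∧ ∀ (g : M) (k : ℕ), 0 < k → k • g ∈ H → e • g ∈ H := by
  haveI : IsNoetherian ℤ M := isNoetherian_of_isNoetherianRing_of_finite ℤ M
  let f : ℕ →o Submodule ℤ M :=
    { toFun := fun k => Submodule.comap (LinearMap.lsmul ℤ M ((Nat.factorial k : ℕ) : ℤ))
        (AddSubgroup.toIntSubmodule H)
      monotone' := by
        intro a b hab x hx
        obtain ⟨c, hc⟩ := Nat.factorial_dvd_factorial hab
        have hx' : ((Nat.factorial a : ℕ) : ℤ) • x ∈ H := hx
        have : ((Nat.factorial b : ℕ) : ℤ) • x ∈ H := by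
          rw [hc, mul_comm, Nat.cast_mul, mul_smul]
          exact H.zsmul_mem hx' _
        exact this }
  obtain ⟨n, hn⟩ := monotone_stabilizes_iff_noetherian.mpr ‹IsNoetherian ℤ M› f
  refine ⟨Nat.factorial n, Nat.factorial_pos n, ?_⟩
  intro g k hk hg
  have hm : g ∈ f (max n k) := by
    have hd : k ∣ Nat.factorial (max n k) := Nat.dvd_factorial hk (le_max_right _ _)
    obtain ⟨c, hc⟩ := hd
    have : ((Nat.factorial (max n k) : ℕ) : ℤ) • g ∈ H := by
      rw [hc, mul_comm, Nat.cast_mul, mul_smul]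
      refine H.zsmul_mem ?_ _
      rw [natCast_zsmul]; exact hg
    exact this
  rw [← hn (max n k) (le_max_left _ _)] at hm
  have : ((Nat.factorial n : ℕ) : ℤ) • g ∈ H := hm
  rwa [natCast_zsmul] at this

/-- The integral elements as elements of the ring of integers. -/
noncomputable def toOK {A S K : Type} [CommGroup A] [CommRing S] [Field K] [NumberField K]
    (f : S →+* K) (ψ : A →* S) (hint : ∀ a, IsIntegral ℤ (ψ a)) : A →* 𝓞 K where
  toFun a := (⟨f (ψ a), by
        have : IsIntegral ℤ (f (ψ a)) := (hint a).map (f.toIntAlgHom)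
        exact this⟩ : 𝓞 K)
  map_one' := by
    apply FaithfulSMul.algebraMap_injective (𝓞 K) K
    refine Eq.trans ?_ (map_one (algebraMap (𝓞 K) K)).symm
    change f (ψ 1) = 1
    rw [map_one, map_one]
  map_mul' a b := by
    apply FaithfulSMul.algebraMap_injective (𝓞 K) K
    refine Eq.trans ?_ (map_mul (algebraMap (𝓞 K) K) _ _).symm
    change f (ψ (a * b)) = f (ψ a) * f (ψ b)
    rw [map_mul, map_mul]

/-- The homomorphism to the units of the ring of integers given by integral elements. -/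
noncomputable def chi {A S K : Type} [CommGroup A] [CommRing S] [Field K] [NumberField K]
    (f : S →+* K) (ψ : A →* S) (hint : ∀ a, IsIntegral ℤ (ψ a)) : A →* (𝓞 K)ˣ :=
  MonoidHom.toHomUnits (toOK f ψ hint)

theorem chi_val {A S K : Type} [CommGroup A] [CommRing S] [Field K] [NumberField K]
    (f : S →+* K) (ψ : A →* S) (hint : ∀ a, IsIntegral ℤ (ψ a)) (a : A) :
    algebraMap (𝓞 K) K (chi f ψ hint a : (𝓞 K)ˣ) = f (ψ a) := rfl

/-- The statement for a finite family of homomorphisms to number fields. -/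
theorem fam_SS (h : S_CHU) (I : Type) [Fintype I] (K : I → Type) [∀ i, Field (K i)]
    [∀ i, NumberField (K i)] (S : Type) [CommRing S] (f : ∀ i, S →+* K i)
    (hf : ∀ x : S, (∀ i, f i x = 0) → IsNilpotent x)
    (A : Type) [CommGroup A] (ψ : A →* S) (hint : ∀ a, IsIntegral ℤ (ψ a))
    (m : ℕ) (hm : 0 < m) : ∃ N : ℕ, 0 < N ∧ ∀ a : A,
      (∃ y : S, IsIntegral ℤ y ∧ ψ a - 1 = (N : S) * y) →
      ∃ b c : A, a = b ^ m * c ∧ IsNilpotent (ψ c - 1) := by
  classical
  let χ : ∀ i : I, A →* (𝓞 (K i))ˣ := fun i => chi (f i) ψ hint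
  let X : Additive A →+ (∀ i : I, Additive (𝓞 (K i))ˣ) :=
    AddMonoidHom.mk' (fun a i => Additive.ofMul (χ i a.toMul)) (by
      intro a b
      funext i
      rw [toMul_add, map_mul, ofMul_mul]
      rfl)
  obtain ⟨e, he, hE⟩ := exists_torsion_exp (∀ i : I, Additive (𝓞 (K i))ˣ) X.range
  have hCH : ∀ i : I, ∃ N : ℕ, 0 < N ∧
      ∀ x : (𝓞 (K i))ˣ, (N : 𝓞 (K i)) ∣ (x : 𝓞 (K i)) - 1 →
        ∃ u : (𝓞 (K i))ˣ, x = u ^ (m * e) := fun i =>
    h (K i) (m * e) (Nat.mul_pos hm he)
  choose N hN0 hN using hCH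
  refine ⟨∏ i, N i, Finset.prod_pos fun i _ => hN0 i, ?_⟩
  rintro a ⟨y, hy, hay⟩
  have hu : ∀ i : I, ∃ u : (𝓞 (K i))ˣ, χ i a = u ^ (m * e) := by
    intro i
    apply hN i
    obtain ⟨d, hd⟩ := Finset.dvd_prod_of_mem N (Finset.mem_univ i)
    have hyP : IsIntegral ℤ (f i y) := hy.map ((f i).toIntAlgHom)
    let w : 𝓞 (K i) := ⟨f i y, hyP⟩
    refine ⟨(d : 𝓞 (K i)) * w, ?_⟩
    apply FaithfulSMul.algebraMap_injective (𝓞 (K i)) (K i)
    have h2 : f i (ψ a) - 1 = (N i : K i) * ((d : K i) * f i y) := by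
      rw [← map_one (f i), ← map_sub, hay, hd]
      rw [map_mul, map_natCast]
      push_cast
      ring
    have h1 : algebraMap (𝓞 (K i)) (K i) (χ i a : (𝓞 (K i))ˣ) = f i (ψ a) := rfl
    have h3 : algebraMap (𝓞 (K i)) (K i) w = f i y := rfl
    rw [map_sub, h1, map_one, map_mul, map_mul, map_natCast, map_natCast, h3]
    exact h2
  choose u hu using hu
  let g : ∀ i : I, Additive (𝓞 (K i))ˣ := fun i => Additive.ofMul (u i)
  have hg : (m * e) • g ∈ X.range := by
    refine ⟨Additive.ofMul a, ?_⟩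
    funext i
    change Additive.ofMul (χ i a) = Additive.ofMul ((u i) ^ (m * e))
    rw [hu i]
  obtain ⟨b, hb⟩ := hE g (m * e) (Nat.mul_pos hm he) hg
  refine ⟨b.toMul, a * (b.toMul ^ m)⁻¹, by
    rw [mul_comm a, mul_inv_cancel_left], ?_⟩
  have hχ : ∀ i, χ i (a * (b.toMul ^ m)⁻¹) = 1 := by
    intro i
    have h1 : χ i b.toMul = u i ^ e := by
      have := congrFun hb i
      exact this
    rw [map_mul, map_inv, map_pow, h1, hu i, ← pow_mul, mul_comm e m, mul_inv_cancel]
  apply hf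
  intro i
  have h2 : f i (ψ (a * (b.toMul ^ m)⁻¹)) = 1 := by
    rw [← chi_val (f i) ψ hint]
    have h3 : chi (f i) ψ hint (a * (b.toMul ^ m)⁻¹) = 1 := hχ i
    rw [h3, Units.val_one, map_one]
  rw [map_sub, h2, map_one, sub_self]

/-- The abstract statement, for a finite-dimensional commutative algebra over the rationals. -/
theorem abs_SS (h : S_CHU) (S : Type) [CommRing S] [Algebra ℚ S] [Module.Finite ℚ S]
    (A : Type) [CommGroup A] (ψ : A →* S) (hint : ∀ a, IsIntegral ℤ (ψ a))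
    (m : ℕ) (hm : 0 < m) : ∃ N : ℕ, 0 < N ∧ ∀ a : A,
      (∃ y : S, IsIntegral ℤ y ∧ ψ a - 1 = (N : S) * y) →
      ∃ b c : A, a = b ^ m * c ∧ IsNilpotent (ψ c - 1) := by
  classical
  haveI : IsArtinianRing S := IsArtinianRing.of_finite ℚ S
  haveI := Fintype.ofFinite (MaximalSpectrum S)
  letI iF : ∀ P : MaximalSpectrum S, Field (S ⧸ P.asIdeal) := fun P =>
    haveI := P.isMaximal
    Ideal.Quotient.field P.asIdeal
  haveI iC : ∀ P : MaximalSpectrum S, CharZero (S ⧸ P.asIdeal) := fun P =>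
    charZero_of_injective_algebraMap (algebraMap ℚ (S ⧸ P.asIdeal)).injective
  haveI iN : ∀ P : MaximalSpectrum S, NumberField (S ⧸ P.asIdeal) := fun P =>
    { to_charZero := iC P
      to_finiteDimensional := by
        have h1 : Module.Finite ℚ (S ⧸ P.asIdeal) := inferInstance
        convert h1
        exact Subsingleton.elim _ _ }
  refine fam_SS h (MaximalSpectrum S) (fun P => S ⧸ P.asIdeal) S
    (fun P => Ideal.Quotient.mk P.asIdeal) ?_ A ψ hint m hm
  intro x hx
  rw [nilpotent_iff_mem_prime]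
  intro J hJ
  haveI := hJ
  have hJm : J.IsMaximal := IsArtinianRing.isMaximal_of_isPrime J
  have h1 := hx ⟨J, hJm⟩
  exact Ideal.Quotient.eq_zero_iff_mem.1 h1

theorem t_SS : S_SS1 := by
  intro h A _ _ n θ m hm
  let R := Matrix (Fin n) (Fin n) ℚ
  let ι : Matrix (Fin n) (Fin n) ℤ →+* Matrix (Fin n) (Fin n) ℚ :=
    (Int.castRingHom ℚ).mapMatrix
  have hι : Function.Injective ι := by
    intro x y hxy
    ext i j
    have := congrFun (congrFun hxy i) j
    simpa [ι] using this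
  let φ : A →* Matrix (Fin n) (Fin n) ℚ := (ι : Matrix (Fin n) (Fin n) ℤ →* _).comp θ
  have hcomm : ∀ x ∈ Set.range φ, ∀ y ∈ Set.range φ, x * y = y * x := by
    rintro _ ⟨a, rfl⟩ _ ⟨b, rfl⟩
    rw [← map_mul, ← map_mul, mul_comm]
  let S := Algebra.adjoin ℚ (Set.range φ)
  letI iS : CommRing S := Algebra.adjoinCommRingOfComm ℚ hcomm
  haveI hfin : Module.Finite ℚ S := by
    have h1 : FiniteDimensional ℚ (Subalgebra.toSubmodule S) := inferInstance
    exact h1
  let ψ : A →* S :=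
    { toFun := fun a => ⟨φ a, Algebra.subset_adjoin ⟨a, rfl⟩⟩
      map_one' := by apply Subtype.ext; exact map_one φ
      map_mul' := by intro a b; apply Subtype.ext; exact map_mul φ a b }
  have hval : ∀ (z : S) , IsIntegral ℤ (z : Matrix (Fin n) (Fin n) ℚ) → IsIntegral ℤ z := by
    intro z hz
    have := (isIntegral_algHom_iff ((S.val : S →+* Matrix (Fin n) (Fin n) ℚ).toIntAlgHom)
      (Subtype.val_injective) (x := z)).1 hz
    exact this
  have hιint : ∀ x : Matrix (Fin n) (Fin n) ℤ, IsIntegral ℤ (ι x) := by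
    intro x
    exact (Matrix.isIntegral x).map (ι.toIntAlgHom)
  obtain ⟨N, hN0, hN⟩ := abs_SS h S A ψ (fun a => hval _ (hιint (θ a))) m hm
  refine ⟨N, hN0, ?_⟩
  intro a ha
  have hNQ : (N : ℚ) ≠ 0 := by exact_mod_cast hN0.ne'
  obtain ⟨b, c, hbc, hnil⟩ := hN a (by
    refine ⟨(N : ℚ)⁻¹ • (ψ a - 1), ?_, ?_⟩
    · apply hval
      choose y hy using ha
      have : (((N : ℚ)⁻¹ • (ψ a - 1) : S) : Matrix (Fin n) (Fin n) ℚ) = ι (Matrix.of y) := by
        ext i j
        have h1 : (((N : ℚ)⁻¹ • (ψ a - 1) : S) : Matrix (Fin n) (Fin n) ℚ) i j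
            = (N : ℚ)⁻¹ * (ι (θ a - 1)) i j := by
          rw [map_sub, map_one]
          rfl
        rw [h1]
        have h2 : (ι (θ a - 1)) i j = (N : ℚ) * (y i j : ℚ) := by
          change (((θ a - 1) i j : ℤ) : ℚ) = _
          rw [hy i j]
          push_cast
          ring
        rw [h2, inv_mul_cancel_left₀ hNQ]
        rfl
      rw [this]
      exact hιint _
    · have h1 : (N : S) * ((N : ℚ)⁻¹ • (ψ a - 1)) = (N : ℚ) • ((N : ℚ)⁻¹ • (ψ a - 1)) := by
        rw [← nsmul_eq_mul, Nat.cast_smul_eq_nsmul]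
      rw [h1, smul_smul, mul_inv_cancel₀ hNQ, one_smul])
  refine ⟨b, c, hbc, ?_⟩
  obtain ⟨k, hk⟩ := hnil
  refine ⟨k, hι ?_⟩
  rw [map_pow, map_zero, map_sub, map_one]
  have := congrArg (fun x : S => (x : Matrix (Fin n) (Fin n) ℚ)) hk
  exact this

end Pool.Agent.V5helper69.CA
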